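import Mathlib
import Pool.Agent.Q60.D3.Defs
import Pool.Agent.W547.LN.Defs

/-!
# Types of abelian varieties with complex multiplication, and the classes generated by divisors, by
Weil classes on abelian fourfolds and by split Weil classes on abelian sixfolds
-/

namespace Pool.Agent.Q60.D3E

open Pool.Agent.H204R3.CM Pool.Agent.Q60.D3
open Pool.Agent.W547.KB (CMPair CMAV)

/-- The abelian variety `A` has complex multiplication by the CM field `B.E` with the CM type `B.Φ`:
the rational homology may be identified with the field `B.E`, and the tangent space with `ℂ ^ (B.Φ)`,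
such that the inclusion of the homology into the tangent space is given by the embeddings in
`B.Φ`. -/
def HasCMType (A : AV) (B : CMPair) : Prop :=
  ∃ (e : A.H ≃ₗ[ℚ] B.E) (C : A.T ≃ₗ[ℂ] (B.Φ → ℂ)), ∀ (w : A.H) (φ : B.Φ), C (A.per w) φ = φ.1 (e w)

/-- The abelian variety `Y` with the endomorphism `h` (a square root of a negative integer) is split:
there are a polarization `E` of `Y` (a positive definite Hermitian form on the tangent space, linear
in the first variable, whose imaginary part has rational values on the homology), such that the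
imaginary part `E'` satisfies `E' (h v) w = - E' v (h w)`, and a subspace `W` of the homology, of half
the dimension, stable under `h` and isotropic for `E'`. -/
def IsSplit (Y : AV) (h : Y.H →ₗ[ℚ] Y.H) : Prop :=
  ∃ (E : Y.T → Y.T → ℂ) (W : Submodule ℚ Y.H), (∀ u', IsLinearMap ℂ fun u => E u u') ∧
    (∀ u u', E u' u = starRingEnd ℂ (E u u')) ∧ (∀ u, u ≠ 0 → 0 < (E u u).re) ∧
    (∀ v w, ∃ q : ℚ, (E (Y.per v) (Y.per w)).im = q) ∧
    (∀ v w, (E (Y.per (h v)) (Y.per w)).im = -(E (Y.per v) (Y.per (h w))).im) ∧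
    2 * Module.finrank ℚ W = Module.finrank ℚ Y.H ∧ (∀ w ∈ W, h w ∈ W) ∧
    ∀ v ∈ W, ∀ w ∈ W, (E (Y.per v) (Y.per w)).im = 0

/-- `f` is a Weil class of an imaginary quadratic field on the abelian variety `Y` of dimension `n`,
and `Y` is of split Weil type: `f ∈ H^n(Y, ℚ)` is a Hodge class, and there are a positive integer
`d` and an endomorphism `h = √-d` of `Y` such that `h` may be moved in `f` from each variable to each
other variable (so `f` lies in the line `Λ^n_K H¹(Y, ℚ)` over the field `K = ℚ(√-d)`), and such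
that `Y` with `h` is split. -/
def IsSplitWeilClass (Y : AV) (n : ℕ) (f : Y.H [⋀^Fin n]→ₗ[ℚ] ℚ) : Prop :=
  Module.finrank ℂ Y.T = n ∧ IsHodge Y.per f ∧
    ∃ (d : ℕ) (h : Y.H →ₗ[ℚ] Y.H), 0 < d ∧ IsHom Y Y h ∧ (∀ w, h (h w) = -((d : ℚ) • w)) ∧
      (∀ (v : Fin n → Y.H) (k l : Fin n),
        f (Function.update v k (h (v k))) = f (Function.update v l (h (v l)))) ∧ IsSplit Y h

/-- The smallest system of cohomology classes `f ∈ H^κ(X, ℚ)` of complex abelian varieties `X`
(alternating forms on `H_1(X, ℚ)` in variables indexed by the finite set `κ`) which contains the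
Hodge classes of degree two, the Weil classes of imaginary quadratic fields on abelian fourfolds and
those on abelian sixfolds of split Weil type, and which is stable under linear combinations, cup
products, pull-backs along homomorphisms and push-forwards along projections `X × Y → X`. -/
inductive Gen : (X : AV) → (κ : Type) → (X.H [⋀^κ]→ₗ[ℚ] ℚ) → Prop
  /-- classes of degree zero -/
  | unit {X : AV} {κ : Type} [IsEmpty κ] (f : X.H [⋀^κ]→ₗ[ℚ] ℚ) : Gen X κ f
  /-- Hodge classes of degree two -/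
  | divisor {X : AV} {κ : Type} (hκ : Nat.card κ = 2) (f : X.H [⋀^κ]→ₗ[ℚ] ℚ)
      (hf : IsHodge X.per f) : Gen X κ f
  /-- Weil classes on abelian fourfolds -/
  | weil {Y : AV} (f : Y.H [⋀^Fin 4]→ₗ[ℚ] ℚ) (hf : IsWeilClass Y f) : Gen Y (Fin 4) f
  /-- Weil classes on abelian sixfolds of split Weil type -/
  | weil6 {Y : AV} (f : Y.H [⋀^Fin 6]→ₗ[ℚ] ℚ) (hf : IsSplitWeilClass Y 6 f) : Gen Y (Fin 6) f
  | zero (X : AV) (κ : Type) : Gen X κ 0
  | add {X : AV} {κ : Type} (f g : X.H [⋀^κ]→ₗ[ℚ] ℚ) (hf : Gen X κ f) (hg : Gen X κ g) :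
      Gen X κ (f + g)
  | smul {X : AV} {κ : Type} (a : ℚ) (f : X.H [⋀^κ]→ₗ[ℚ] ℚ) (hf : Gen X κ f) :
      Gen X κ (a • f)
  /-- renaming of the variables -/
  | reindex {X : AV} {κ κ' : Type} (e : κ ≃ κ') (f : X.H [⋀^κ]→ₗ[ℚ] ℚ) (hf : Gen X κ f) :
      Gen X κ' (f.domDomCongr e)
  /-- cup products (up to a factor) -/
  | cup {X : AV} {κ κ' : Type} [Fintype κ] [DecidableEq κ] [Fintype κ'] [DecidableEq κ']
      (f : X.H [⋀^κ]→ₗ[ℚ] ℚ) (g : X.H [⋀^κ']→ₗ[ℚ] ℚ) (hf : Gen X κ f) (hg : Gen X κ' g)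
      (h : X.H [⋀^κ ⊕ κ']→ₗ[ℚ] ℚ)
      (hh : ∀ v : κ ⊕ κ' → X.H, h v = ∑ σ : Equiv.Perm (κ ⊕ κ'), ((Equiv.Perm.sign σ : ℤ) : ℚ) *
        (f (fun k => v (σ (Sum.inl k))) * g (fun k => v (σ (Sum.inr k))))) :
      Gen X (κ ⊕ κ') h
  /-- pull-back along a homomorphism -/
  | pull {X Y : AV} {κ : Type} (h : X.H →ₗ[ℚ] Y.H) (hh : IsHom X Y h)
      (f : Y.H [⋀^κ]→ₗ[ℚ] ℚ) (hf : Gen Y κ f) : Gen X κ (f.compLinearMap h)
  /-- push-forward (integration over the fibres) along the projection `X × Y → X`: insert a basis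
  of `H_1(Y, ℚ)` -/
  | push {X Y : AV} {κ κ' : Type} (b : Module.Basis κ' ℚ Y.H)
      (f : (X.prod Y).H [⋀^κ ⊕ κ']→ₗ[ℚ] ℚ) (hf : Gen (X.prod Y) (κ ⊕ κ') f)
      (g : X.H [⋀^κ]→ₗ[ℚ] ℚ)
      (hg : ∀ v : κ → X.H,
        g v = f (Sum.elim (fun k => ((v k, 0) : X.H × Y.H)) (fun k => ((0, b k) : X.H × Y.H)))) :
      Gen X κ g

end Pool.Agent.Q60.D3E
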