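import Mathlib
import Pool.Agent.Q60.D3E.Defs
import Pool.Agent.Q60.D3P.Fine
import Pool.Agent.W547.LN.Main

/-!
# Project D3E: statements of the lemma jobs
-/

namespace Pool.Agent.Q60.D3E

open Pool.Agent.H204R3.CM
open Pool.Agent.Q60.D3 (AV IsHom IsSimple IsCM KOn IsIsogenousToProd)
open Pool.Agent.W547.KB (CMPair CMAV)
open Pool.Agent.W547.LD (DWRing)
open Pool.Agent.W547.LN (SmallFactors SameType)

/-- The abelian variety `Y` is isomorphic (up to isogeny) to the product `X` of abelian varieties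
of CM types. -/
def IsoCM (Y : AV) (X : CMAV) : Prop :=
  ∃ (e : Y.H ≃ₗ[ℚ] X.H1) (C : Y.T ≃ₗ[ℂ] X.Tan), ∀ w, C (Y.per w) = X.per (e w)

/-- JOB E1 (classification). A simple abelian variety of CM type has a CM type. -/
def S_cls : Prop :=
  ∀ A : AV, IsSimple A → IsCM A → 0 < Module.finrank ℂ A.T → ∃ B : CMPair, HasCMType A B

/-- JOB E2. Abelian varieties of dimension one are simple. -/
def S_one : Prop := ∀ E : AV, Module.finrank ℂ E.T = 1 → IsSimple E

/-- JOB E3. Products of abelian varieties of CM types are of CM type. -/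
def S_iscm : Prop := ∀ (Y : AV) (X : CMAV), IsoCM Y X → IsCM Y

/-- JOB E4. Products of products. -/
def S_prod : Prop :=
  ∀ (Y Y' : AV) (X X' : CMAV), IsoCM Y X → IsoCM Y' X' → IsoCM (Y.prod Y') (X.prod X')

/-- JOB E5. The ring generated by divisors and split Weil classes consists of generated classes. -/
def S_ring : Prop :=
  ∀ (Y : AV) (X : CMAV) (e : Y.H ≃ₗ[ℚ] X.H1) (C : Y.T ≃ₗ[ℂ] X.Tan),
    (∀ w, C (Y.per w) = X.per (e w)) → ∀ (κ : Type) (f : X.H1 [⋀^κ]→ₗ[ℚ] ℚ), DWRing X κ f →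
      Gen Y κ (f.compLinearMap e.toLinearMap)

/-- JOB E6. The condition `SmallFactors`. -/
def S_small : Prop :=
  ∀ 𝒮 : Set CMPair, (∀ B ∈ 𝒮, Module.finrank ℚ B.E ≤ 6) →
    (∀ B ∈ 𝒮, ∀ B' ∈ 𝒮, IntermediateField.normalClosure ℚ B.E ℂ =
      IntermediateField.normalClosure ℚ B'.E ℂ → IsGalois ℚ B.E ∨ SameType B B') →
    ∀ X : CMAV, (∀ i, X.factor i ∈ 𝒮 ∨ Module.finrank ℚ (X.factor i).E = 2) → SmallFactors X

/-- JOB E7. The generated classes are Hodge classes. -/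
def S_conv : Prop :=
  ∀ (X : AV) (κ : Type) (f : X.H [⋀^κ]→ₗ[ℚ] ℚ), Gen X κ f → Finite κ → IsHodge X.per f

end Pool.Agent.Q60.D3E
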