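import Mathlib
import Pool.Agent.Q60.D3.Defs

/-!
# Project D3E: the classification of simple abelian varieties of CM type, statements of the lemma
jobs
-/

namespace Pool.Agent.Q60.D3E

open NumberField Pool.Agent.H204R3.CM
open Pool.Agent.Q60.D3 (AV IsHom IsSimple IsCM)

/-- JOB E1a. CM fields. -/
def S_cmf : Prop :=
  ∀ (K : Type) [Field K] [NumberField K] (c : K →+* K),
    (∀ (φ : K →+* ℂ) (x : K), φ (c x) = starRingEnd ℂ (φ x)) →
    (∀ φ : K →+* ℂ, ComplexEmbedding.conjugate φ ≠ φ) → IsCMField K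

/-- JOB E1b. The type of an abelian variety with multiplication by a field of maximal degree. -/
def S_type : Prop :=
  ∀ (A : AV) (K : Type) [Field K] [NumberField K] (r : K →+* Module.End ℚ A.H),
    (∀ x, IsHom A A (r x)) → Module.finrank ℚ K = Module.finrank ℚ A.H →
    ∃ (Φ : Set (K →+* ℂ)) (e : A.H ≃ₗ[ℚ] K) (C : A.T ≃ₗ[ℂ] (Φ → ℂ)), IsCMType Φ ∧
      (∀ x w, e (r x w) = x * e w) ∧ ∀ (w : A.H) (φ : Φ), C (A.per w) φ = φ.1 (e w)

/-- JOB E1c. The endomorphism algebra of a simple abelian variety of CM type is a field of maximal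
degree. -/
def S_fld : Prop :=
  ∀ A : AV, IsSimple A → IsCM A → 0 < Module.finrank ℂ A.T →
    ∃ (K : Type) (_ : Field K) (_ : NumberField K) (r : K →+* Module.End ℚ A.H),
      (∀ x, IsHom A A (r x)) ∧ (∀ s : Module.End ℚ A.H, IsHom A A s → ∃ x, s = r x) ∧
      Module.finrank ℚ K = Module.finrank ℚ A.H

/-- JOB E1d. The Rosati involution is the complex conjugation. -/
def S_ros : Prop :=
  ∀ (A : AV) (K : Type) [Field K] [NumberField K] (r : K →+* Module.End ℚ A.H)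
    (Φ : Set (K →+* ℂ)) (e : A.H ≃ₗ[ℚ] K) (C : A.T ≃ₗ[ℂ] (Φ → ℂ)),
    (∀ x, IsHom A A (r x)) → (∀ s : Module.End ℚ A.H, IsHom A A s → ∃ x, s = r x) →
    IsCMType Φ → (∀ x w, e (r x w) = x * e w) →
    (∀ (w : A.H) (φ : Φ), C (A.per w) φ = φ.1 (e w)) →
    ∃ c : K →+* K, ∀ (φ : K →+* ℂ) (x : K), φ (c x) = starRingEnd ℂ (φ x)

end Pool.Agent.Q60.D3E
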