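import Mathlib
import Pool.Agent.Q60.D3E.Stm
import Pool.Agent.Q60.D3E.Stm2

/-!
# Hodge classes on abelian varieties with simple factors of dimension at most three: assembly
-/

set_option linter.unusedSectionVars false
set_option linter.unusedVariables false

namespace Pool.Agent.Q60.D3E

open Pool.Agent.H204R3.CM
open Pool.Agent.Q60.D3 (AV IsHom IsSimple IsCM KOn IsIsogenousToProd)
open Pool.Agent.Q60.D3P (CP)
open Pool.Agent.W547.KB (CMPair CMAV)
open Pool.Agent.W547.LD (DWRing)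
open Pool.Agent.W547.LN (SmallFactors SameType isHodge_iff_ring_small)

/-- The classification, from the lemmas. -/
theorem cls (h1 : S_cmf) (h2 : S_type) (h3 : S_fld) (h4 : S_ros) : S_cls := by
  intro A hs hcm hd
  obtain ⟨K, _, _, r, hr, hr', hfr⟩ := h3 A hs hcm hd
  obtain ⟨Φ, e, C, hΦ, he, hC⟩ := h2 A K r hr hfr
  obtain ⟨c, hc⟩ := h4 A K r Φ e C hr hr' hΦ he hC
  have hne : ∀ φ : K →+* ℂ, NumberField.ComplexEmbedding.conjugate φ ≠ φ := by
    intro φ h
    have h5 := hΦ φ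
    rw [h] at h5
    exact (iff_not_self h5)
  have hcmf : NumberField.IsCMField K := h1 K c hc hne
  exact ⟨⟨K, Φ, hΦ⟩, e, C, hC⟩

variable {𝒮 : Set CMPair}

/-- The products of abelian varieties with types in `𝒮` and of elliptic curves. -/
def InP (𝒮 : Set CMPair) (Y : AV) : Prop :=
  ∃ X : CMAV, (∀ i, X.factor i ∈ 𝒮 ∨ Module.finrank ℚ (X.factor i).E = 2) ∧ IsoCM Y X

theorem isoCM_single {A : AV} {B : CMPair} (h : HasCMType A B) : IsoCM A ⟨Unit, fun _ => B⟩ := by
  obtain ⟨e, C, hC⟩ := h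
  refine ⟨e.trans (LinearEquiv.funUnique Unit ℚ B.E).symm,
    C.trans (LinearEquiv.funUnique Unit ℂ (B.Φ → ℂ)).symm, fun w => ?_⟩
  funext i φ
  exact hC w φ

theorem finrank_of_type {A : AV} {B : CMPair} (h : HasCMType A B) :
    Module.finrank ℚ B.E = 2 * Module.finrank ℂ A.T := by
  obtain ⟨e, C, hC⟩ := h
  rw [← e.finrank_eq, A.dim]

theorem inP_zero {A : AV} (h : Module.finrank ℂ A.T = 0) : InP 𝒮 A := by
  have h1 : Module.finrank ℚ A.H = 0 := by rw [A.dim, h]
  have s1 : Subsingleton A.H := Module.finrank_zero_iff.1 h1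
  have s2 : Subsingleton A.T := Module.finrank_zero_iff.1 h
  refine ⟨⟨Empty, fun i => i.elim⟩, fun i => i.elim, ?_⟩
  have s3 : Subsingleton (CMAV.mk Empty fun i => i.elim).H1 := ⟨fun a b => funext fun i => i.elim⟩
  have s4 : Subsingleton (CMAV.mk Empty fun i => i.elim).Tan := ⟨fun a b => funext fun i => i.elim⟩
  exact ⟨LinearEquiv.ofSubsingleton _ _, LinearEquiv.ofSubsingleton _ _,
    fun w => Subsingleton.elim _ _⟩

/-- The class of the products. -/
theorem exists_cp (hcls : S_cls) (hone : S_one) (hiscm : S_iscm) (hprod : S_prod)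
    (𝒮 : Set CMPair) : ∃ cp : CP, cp.P = InP 𝒮 := by
  refine ⟨{ P := InP 𝒮
            cm := ?_
            iso := ?_
            prod := ?_
            ell := ?_ }, rfl⟩
  · rintro Y ⟨X, -, h⟩
    exact hiscm Y X h
  · rintro Y Y' e C h ⟨X, hX, e', C', h'⟩
    refine ⟨X, hX, e.symm.trans e', C.symm.trans C', fun w => ?_⟩
    have h1 := h (e.symm w)
    rw [e.apply_symm_apply] at h1
    change C' (C.symm (Y'.per w)) = X.per (e' (e.symm w))
    rw [← h', ← h1, C.symm_apply_apply]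
  · rintro Y Y' ⟨X, hX, h⟩ ⟨X', hX', h'⟩
    refine ⟨X.prod X', ?_, hprod Y Y' X X' h h'⟩
    rintro (i | i)
    · exact hX i
    · exact hX' i
  · intro E K
    have h1 : Module.finrank ℂ E.T = 1 := K.dimA
    obtain ⟨B, hB⟩ := hcls E (hone E h1) (Pool.Agent.Q237.D3C.ecm E K) (by rw [h1]; exact one_pos)
    refine ⟨⟨Unit, fun _ => B⟩, fun _ => Or.inr ?_, isoCM_single hB⟩
    change Module.finrank ℚ B.E = 2
    rw [finrank_of_type hB, h1]

/-- The Hodge classes on the products are generated. -/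
theorem gen_of_inP (hring : S_ring) (hsmall : S_small)
    (h6 : ∀ B ∈ 𝒮, Module.finrank ℚ B.E ≤ 6)
    (hcl : ∀ B ∈ 𝒮, ∀ B' ∈ 𝒮, IntermediateField.normalClosure ℚ B.E ℂ =
      IntermediateField.normalClosure ℚ B'.E ℂ → IsGalois ℚ B.E ∨ SameType B B')
    {Y : AV} (hY : InP 𝒮 Y) {κ : Type} [Finite κ] (f : Y.H [⋀^κ]→ₗ[ℚ] ℚ) (hf : IsHodge Y.per f) :
    Gen Y κ f := by
  obtain ⟨X, hX, e, C, h⟩ := hY
  have hX' := hsmall 𝒮 h6 hcl X hX
  have h1 : IsHodge X.per (f.compLinearMap e.symm.toLinearMap) := by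
    refine Pool.Agent.W437.HK.isHodge_pullback (Φ := C.symm.toLinearMap) (fun w => ?_) hf
    have h2 := h (e.symm w)
    rw [e.apply_symm_apply] at h2
    change Y.per (e.symm w) = C.symm (X.per w)
    rw [← h2, C.symm_apply_apply]
  have h3 := hring Y X e C h κ _ ((isHodge_iff_ring_small X hX' _).1 h1)
  have h4 : (f.compLinearMap e.symm.toLinearMap).compLinearMap e.toLinearMap = f := by
    ext v
    change f (fun l => e.symm (e (v l))) = f v
    congr 1
    funext l
    exact e.symm_apply_apply _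
  rwa [h4] at h3

/-- The relative generated classes are generated. -/
theorem gen_of_genP [cp : CP] (hP : ∀ {Y : AV}, cp.P Y → ∀ {κ : Type} [Finite κ]
    (f : Y.H [⋀^κ]→ₗ[ℚ] ℚ), IsHodge Y.per f → Gen Y κ f) {X : AV} {κ : Type}
    (f : X.H [⋀^κ]→ₗ[ℚ] ℚ) (h : Pool.Agent.Q60.D3P.Gen X κ f) : Finite κ → Gen X κ f := by
  induction h with
  | unit f => exact fun _ => .unit f
  | divisor hκ f hf => exact fun _ => .divisor hκ f hf
  | weil f hf => exact fun _ => .weil f hf
  | cm hY f hf => exact fun _ => hP hY f hf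
  | zero X κ => exact fun _ => .zero X κ
  | add f g _ _ ihf ihg => exact fun h => .add f g (ihf h) (ihg h)
  | smul a f _ ih => exact fun h => .smul a f (ih h)
  | reindex e f _ ih => exact fun h => .reindex e f (ih (Finite.of_equiv _ e.symm))
  | cup f g _ _ h hh ihf ihg => exact fun _ => .cup f g (ihf inferInstance) (ihg inferInstance) h hh
  | pull h hh f _ ih => exact fun hfin => .pull h hh f (ih hfin)
  | push b f _ g hg ih =>
    intro h
    have := Module.Finite.finite_basis b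
    exact .push b f (ih inferInstance) g hg

/-- The theorem on Hodge classes, from the lemmas. -/
theorem top (hcls : S_cls) (hone : S_one) (hiscm : S_iscm) (hprod : S_prod) (hring : S_ring)
    (hsmall : S_small) (hconv : S_conv) {ι : Type} [Finite ι] {X : AV} {A : ι → AV}
    (hX : IsIsogenousToProd X A) (hs : ∀ i, IsSimple (A i))
    (hd : ∀ i, Module.finrank ℂ (A i).T ≤ 3)
    (hcl : ∀ i k (B B' : CMPair), HasCMType (A i) B → HasCMType (A k) B' →
      IntermediateField.normalClosure ℚ B.E ℂ = IntermediateField.normalClosure ℚ B'.E ℂ →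
      IsGalois ℚ B.E ∨ SameType B B')
    {κ : Type} [Finite κ] (f : X.H [⋀^κ]→ₗ[ℚ] ℚ) : IsHodge X.per f ↔ Gen X κ f := by
  refine ⟨fun hf => ?_, fun hf => hconv X κ f hf inferInstance⟩
  let 𝒮 : Set CMPair := {B | ∃ i, HasCMType (A i) B}
  obtain ⟨cp, hcp⟩ := exists_cp hcls hone hiscm hprod 𝒮
  have h6 : ∀ B ∈ 𝒮, Module.finrank ℚ B.E ≤ 6 := by
    rintro B ⟨i, hi⟩
    rw [finrank_of_type hi]
    have := hd i
    omega
  have hcl' : ∀ B ∈ 𝒮, ∀ B' ∈ 𝒮, IntermediateField.normalClosure ℚ B.E ℂ =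
      IntermediateField.normalClosure ℚ B'.E ℂ → IsGalois ℚ B.E ∨ SameType B B' := by
    rintro B ⟨i, hi⟩ B' ⟨k, hk⟩ h
    exact hcl i k B B' hi hk h
  have hcmP : ∀ i, IsCM (A i) → cp.P (A i) := by
    intro i hi
    rw [hcp]
    by_cases h0 : Module.finrank ℂ (A i).T = 0
    · exact inP_zero h0
    · obtain ⟨B, hB⟩ := hcls (A i) (hs i) hi (Nat.pos_of_ne_zero h0)
      exact ⟨⟨Unit, fun _ => B⟩, fun _ => Or.inl ⟨i, hB⟩, isoCM_single hB⟩
  have h1 := (Pool.Agent.Q60.D3P.hodge_dim_three_class hX hs (fun i => Or.inl (hd i)) hcmP f).1 hf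
  refine gen_of_genP (fun {Y} hY {κ} _ f hf => ?_) f h1 inferInstance
  rw [hcp] at hY
  exact gen_of_inP hring hsmall h6 hcl' hY f hf

end Pool.Agent.Q60.D3E
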