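import Mathlib
import Pool.Agent.Q60.D3E.Asm
import Pool.Agent.Q60.D3Q.Asm
import Pool.Agent.Q81.D3E.Cmf
import Pool.Agent.Q81.D3E.Ros
import Pool.Agent.Q177.D3E.Fld
import Pool.Agent.Q261.D3E.Typ
import Pool.Agent.Q261.D3E.One
import Pool.Agent.Q237.D3E.Easy
import Pool.Agent.Q237.D3E.Ring
import Pool.Agent.Q299.D3Q.Polx
import Pool.Agent.Q299.D3Q.Kbt
import Pool.Agent.Q299.D3Q.Conv

/-!
# Hodge classes on abelian varieties with simple factors of dimension at most three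
-/

namespace Pool.Agent.Q60.D3E

open Pool.Agent.H204R3.CM
open Pool.Agent.Q60.D3 (AV IsHom IsSimple IsCM IsIsogenousToProd)
open Pool.Agent.W547.KB (CMPair CMAV)
open Pool.Agent.W547.LN (SameType)

theorem cls' : S_cls := cls Pool.Agent.Q81.D3E.cmf Pool.Agent.Q261.D3E.type'
  Pool.Agent.Q177.D3E.fld Pool.Agent.Q81.D3E.ros

/-- The theorem on Hodge classes. -/
theorem hodge_explicit {ι : Type} [Finite ι] {X : AV} {A : ι → AV}
    (hX : IsIsogenousToProd X A) (hs : ∀ i, IsSimple (A i))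
    (hd : ∀ i, Module.finrank ℂ (A i).T ≤ 3)
    (hcl : ∀ i k (B B' : CMPair), HasCMType (A i) B → HasCMType (A k) B' →
      IntermediateField.normalClosure ℚ B.E ℂ = IntermediateField.normalClosure ℚ B'.E ℂ →
      IsGalois ℚ B.E ∨ SameType B B')
    {κ : Type} [Finite κ] (f : X.H [⋀^κ]→ₗ[ℚ] ℚ) : IsHodge X.per f ↔ Gen X κ f :=
  top cls' Pool.Agent.Q261.D3E.one Pool.Agent.Q237.D3E.iscm Pool.Agent.Q237.D3E.prod'
    Pool.Agent.Q237.D3E.ring' Pool.Agent.Q237.D3E.small Pool.Agent.Q237.D3E.conv hX hs hd hcl f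

/-- Codimension two suffices. -/
theorem hodge_codim_two {ι : Type} [Finite ι] {X : AV} {A : ι → AV}
    (hX : IsIsogenousToProd X A) (hs : ∀ i, IsSimple (A i))
    (hd : ∀ i, Module.finrank ℂ (A i).T ≤ 3 ∨ IsCM (A i))
    {κ : Type} [Finite κ] (f : X.H [⋀^κ]→ₗ[ℚ] ℚ) :
    IsHodge X.per f ↔ Pool.Agent.Q60.D3Q.Gen X κ f :=
  Pool.Agent.Q60.D3Q.top cls' Pool.Agent.Q261.D3E.one Pool.Agent.Q237.D3E.iscm
    Pool.Agent.Q237.D3E.prod' Pool.Agent.Q299.D3Q.polx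
    (Pool.Agent.Q299.D3Q.kbt Pool.Agent.Q237.D3E.iscm) Pool.Agent.Q299.D3Q.conv hX hs hd f

end Pool.Agent.Q60.D3E
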